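import Mathlib

namespace Pool.Agent.Results.MP_e17fb9_al.NonAb

open RegularWreathProduct

/-- the states of the automaton, as maps on words -/
def st {Y : Type} [Group Y] : Y → List Y → List Y
  | _, [] => []
  | i, j :: w => (i * j) :: st (j⁻¹ * i) w

/-- the automaton group -/
def autGroup (Y : Type) [Group Y] : Subgroup (Equiv.Perm (List Y)) :=
  Subgroup.closure {σ | ∃ i : Y, ∀ w, σ w = st i w}

/-- the map computed from a state of an automaton whose output maps are left multiplications -/
def run {Y Q : Type} [Group Y] (δ : Q → Y → Q) (μ : Q → Y) : Q → List Y → List Y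
  | _, [] => []
  | q, x :: w => (μ q * x) :: run δ μ (δ q x) w

/-- finite state wreath power -/
def fsw (Y : Type) [Group Y] : Set (List Y → List Y) :=
  {f | ∃ (n : ℕ) (δ : Fin n → Y → Fin n) (μ : Fin n → Y) (q : Fin n), f = run δ μ q}

/-- restricted wreath product -/
def lamp (Y : Type) [Group Y] : Subgroup (RegularWreathProduct Y (Multiplicative ℤ)) where
  carrier := {g | {x | g.left x ≠ 1}.Finite}
  one_mem' := by simp
  mul_mem' := by
    intro a b ha hb
    have h2 : ((fun x => a.right * x) '' {x | b.left x ≠ 1}).Finite := Set.Finite.image _ hb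
    refine (Set.Finite.union ha h2).subset ?_
    intro x hx
    by_cases h : a.left x = 1
    · right
      refine ⟨a.right⁻¹ * x, ?_, by simp⟩
      intro h'
      apply hx
      simp [h, h']
    · left; exact h
  inv_mem' := by
    intro a ha
    have h2 : ((fun x => a.right⁻¹ * x) '' {x | a.left x ≠ 1}).Finite := Set.Finite.image _ ha
    refine h2.subset ?_
    intro x hx
    refine ⟨a.right * x, ?_, by simp⟩
    intro h'
    apply hx
    simp [h']

section
variable {Y : Type} [Group Y]

lemma st_len (i : Y) (w : List Y) : (st i w).length = w.length := by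
  induction w generalizing i with
  | nil => rfl
  | cons j w ih => simp [st, ih]

lemma st_bij (i : Y) : Function.Bijective (st i) := by
  constructor
  · intro w w' h
    induction w generalizing i w' with
    | nil =>
      cases w' with
      | nil => rfl
      | cons _ _ => simp [st] at h
    | cons j w ih =>
      cases w' with
      | nil => simp [st] at h
      | cons j' w' =>
        simp only [st, List.cons.injEq, mul_right_inj] at h
        obtain ⟨rfl, h⟩ := h
        rw [ih _ h]
  · intro w
    induction w generalizing i with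
    | nil => exact ⟨[], rfl⟩
    | cons k w ih =>
      obtain ⟨u, hu⟩ := ih ((i⁻¹ * k)⁻¹ * i)
      exact ⟨(i⁻¹ * k) :: u, by simp only [st, hu]; simp⟩

lemma run_len {Q : Type} (δ : Q → Y → Q) (μ : Q → Y) (q : Q) (w : List Y) :
    (run δ μ q w).length = w.length := by
  induction w generalizing q with
  | nil => rfl
  | cons j w ih => simp [run, ih]

def el (n : ℤ) (y : Y) : lamp Y :=
  ⟨⟨Pi.mulSingle (Multiplicative.ofAdd n) y, 1⟩, by
    refine (Set.finite_singleton (Multiplicative.ofAdd n)).subset ?_
    intro x hx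
    by_contra h
    exact hx (Pi.mulSingle_eq_of_ne h _)⟩

def tt (n : ℤ) : lamp Y := ⟨inl (Multiplicative.ofAdd n), by
  change Set.Finite _
  simp⟩

lemma tt_pow (n : ℕ) : (tt 1 : lamp Y) ^ n = tt n := by
  apply Subtype.ext
  simp only [tt, SubgroupClass.coe_pow, ← map_pow]
  congr 1
  rw [← ofAdd_nsmul]
  simp

lemma tt_el (n : ℤ) (y : Y) : tt n * el 0 y = el n y * tt n := by
  apply Subtype.ext
  ext x
  · simp only [tt, el, Subgroup.coe_mul, mul_left, left_inl, right_inl, one_mul, Pi.mul_apply,
      Pi.one_apply, mul_one]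
    by_cases h : x = Multiplicative.ofAdd n
    · rw [h, inv_mul_cancel, Pi.mulSingle_eq_same]
      exact Pi.mulSingle_eq_same (M := fun _ => Y) _ _
    · rw [Pi.mulSingle_eq_of_ne h, Pi.mulSingle_eq_of_ne]
      intro h'
      apply h
      have : x = Multiplicative.ofAdd n * ((Multiplicative.ofAdd n)⁻¹ * x) := by simp
      rw [this, h']
      simp
  · simp [tt, el]

lemma el_comm (n : ℤ) (hn : n ≠ 0) (y y' : Y) : el n y * el 0 y' = el 0 y' * el n y := by
  apply Subtype.ext
  ext x
  · simp only [el, Subgroup.coe_mul, mul_left, inv_one, one_mul, Pi.mul_apply]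
    by_cases h : x = Multiplicative.ofAdd n
    · have : x ≠ Multiplicative.ofAdd 0 := by
        rw [h]; simpa using hn
      rw [Pi.mulSingle_eq_of_ne this]; simp
    · rw [Pi.mulSingle_eq_of_ne h]; simp
  · simp [el]

lemma fin_comm {K : Type} [Group K] [Finite K] (ψ : lamp Y →* K) (y y' : Y) :
    ψ (el 0 y) * ψ (el 0 y') = ψ (el 0 y') * ψ (el 0 y) := by
  have hpos : 0 < orderOf (ψ (tt 1)) := orderOf_pos _
  set n := orderOf (ψ (tt 1)) with hn
  have h1 : ψ (tt (n : ℤ)) = 1 := by
    rw [← tt_pow, map_pow]; exact pow_orderOf_eq_one _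
  have h2 : ψ (el 0 y) = ψ (el n y) := by
    have := congrArg ψ (tt_el (n : ℤ) y)
    simpa [h1] using this
  rw [h2, ← map_mul, ← map_mul, el_comm _ (by exact_mod_cast hpos.ne')]

lemma key [Finite Y] (y y' : Y) (h : y * y' ≠ y' * y) (φ : lamp Y →* Equiv.Perm (List Y))
    (hl : ∀ g w, (φ g w).length = w.length) : ¬ Function.Injective φ := by
  intro hinj
  have : φ (el 0 y) * φ (el 0 y') = φ (el 0 y') * φ (el 0 y) := by
    ext1 w
    have : Finite {u : List Y // u.length = w.length} := List.finite_length_eq Y w.length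
    let ψ : lamp Y →* Equiv.Perm {u : List Y // u.length = w.length} :=
      { toFun := fun g => (φ g).subtypePerm (fun u => by rw [hl])
        map_one' := by ext1 u; apply Subtype.ext; simp
        map_mul' := by intro a b; ext1 u; apply Subtype.ext; simp }
    have := congrArg (fun σ : Equiv.Perm {u : List Y // u.length = w.length} =>
      (σ ⟨w, rfl⟩ : List Y)) (fin_comm ψ y y')
    simpa [ψ] using this
  rw [← map_mul, ← map_mul] at this
  have h3 := congrArg (fun g : lamp Y => (g : RegularWreathProduct Y (Multiplicative ℤ)).left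
    (Multiplicative.ofAdd 0)) (hinj this)
  apply h
  simpa [el] using h3

lemma key2 [Finite Y] (y y' : Y) (h : y * y' ≠ y' * y) (H : Subgroup (Equiv.Perm (List Y)))
    (hl : ∀ σ ∈ H, ∀ w, (σ w).length = w.length) : IsEmpty (H ≃* lamp Y) := by
  constructor
  intro e
  refine key y y' h (H.subtype.comp e.symm.toMonoidHom) (fun g w => hl _ (e.symm g).2 w) ?_
  exact Subtype.val_injective.comp e.symm.injective

end

theorem result (Y : Type) [Group Y] [Finite Y] (hY : ∃ y y' : Y, y * y' ≠ y' * y) :
    (∀ i : Y, Function.Bijective (st i)) ∧ IsEmpty (autGroup Y ≃* lamp Y) ∧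
    ∀ H : Subgroup (Equiv.Perm (List Y)), (∀ σ ∈ H, ⇑σ ∈ fsw Y) → IsEmpty (H ≃* lamp Y) := by
  obtain ⟨y, y', h⟩ := hY
  refine ⟨st_bij, key2 y y' h _ ?_, fun H hH => key2 y y' h _ ?_⟩
  · intro σ hσ
    induction hσ using Subgroup.closure_induction with
    | mem σ hσ =>
      obtain ⟨i, hi⟩ := hσ
      intro w
      rw [hi, st_len]
    | one => intro w; rfl
    | mul a b _ _ ha hb => intro w; simp [ha, hb]
    | inv a _ ha =>
      intro w
      have := ha (a⁻¹ w)
      simpa using this.symm
  · intro σ hσ w
    obtain ⟨n, δ, μ, q, hq⟩ := hH σ hσ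
    rw [hq, run_len]

end Pool.Agent.Results.MP_e17fb9_al.NonAb
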